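import Mathlib

/-!
Auxiliary spaces for the counterexample on selective high divergence:
* `N1` = the compact ordered space `ω₁ + 1`, `M1 = N1^ℕ`;
* `K1` = a compact Hausdorff selectively highly divergent space;
* `JJ` = an almost disjoint family indexed by sequences in Cantor space.
-/

set_option autoImplicit false

open Set Filter Topology

namespace Pool.Agent.helper66.SHD

/-! ### The space `ω₁ + 1` and its countable power -/

/-- a well-ordered set of type `ω₁` -/
abbrev W1 : Type := (Cardinal.aleph 1 : Cardinal.{0}).ord.ToType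

theorem W1_uncountable : Uncountable W1 := by
  rw [← Cardinal.aleph0_lt_mk_iff, Cardinal.mk_ord_toType]
  exact Cardinal.aleph0_lt_aleph_one

theorem W1_countable_Iio (i : W1) : (Iio i).Countable := by
  have h : Cardinal.mk (Iio i) < Cardinal.aleph 1 := by simpa using Cardinal.mk_Iio_lt i
  have h2 : Cardinal.mk (Iio i) ≤ Cardinal.aleph0 := by
    rw [← Order.lt_succ_iff, Cardinal.succ_aleph0]
    exact h
  exact Cardinal.le_aleph0_iff_set_countable.1 h2

theorem W1_countable_Iic (i : W1) : (Iic i).Countable := by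
  rw [← Iio_insert]
  exact (W1_countable_Iio i).insert i

theorem W1_bounded (x : ℕ → W1) : ∃ b, ∀ n, x n < b := by
  by_contra hcon
  push Not at hcon
  have : (univ : Set W1).Countable := by
    refine (countable_iUnion fun n => W1_countable_Iic (x n)).mono ?_
    intro b _
    obtain ⟨n, hn⟩ := hcon b
    exact mem_iUnion.2 ⟨n, hn⟩
  exact (not_countable_univ_iff.2 W1_uncountable) this

instance : Nonempty W1 := by
  have := W1_uncountable
  infer_instance

/-- the compact ordered space `ω₁ + 1` -/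
abbrev N1 : Type := WithTop W1

noncomputable instance : OrderBot W1 := WellFoundedLT.toOrderBot W1

noncomputable local instance instCCLO : ConditionallyCompleteLinearOrderBot N1 :=
  WellFoundedLT.conditionallyCompleteLinearOrderBot N1

noncomputable instance : TopologicalSpace N1 := Preorder.topology N1
instance : OrderTopology N1 := ⟨rfl⟩

instance : CompactSpace N1 := by
  refine ⟨?_⟩
  have : (univ : Set N1) = Icc ⊥ ⊤ := by
    ext x; simp
  rw [this]
  exact isCompact_Icc

theorem N1_seqCompact (x : ℕ → N1) :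
    ∃ a, ∃ φ : ℕ → ℕ, StrictMono φ ∧ Tendsto (x ∘ φ) atTop (𝓝 a) := by
  obtain ⟨g, hg⟩ := exists_increasing_or_nonincreasing_subseq (· ≤ ·) x
  rcases hg with hg | hg
  · have hm : Monotone (x ∘ g) := by
      intro m n hmn
      rcases hmn.eq_or_lt with h | h
      · rw [h]
      · exact hg m n h
    exact ⟨_, g, g.strictMono, tendsto_atTop_ciSup hm ⟨⊤, by rintro _ ⟨n, rfl⟩; exact le_top⟩⟩
  · have hm : Antitone (x ∘ g) := by
      intro m n hmn
      rcases hmn.eq_or_lt with h | h
      · rw [h]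
      · exact (not_le.1 (hg m n h)).le
    exact ⟨_, g, g.strictMono, tendsto_atTop_ciInf hm ⟨⊥, by rintro _ ⟨n, rfl⟩; exact bot_le⟩⟩

/-- a sequence of points different from the top does not converge to the top -/
theorem N1_top_not_lim (x : ℕ → N1) (hx : ∀ n, x n ≠ ⊤) (a : N1)
    (ha : Tendsto x atTop (𝓝 a)) : a ≠ ⊤ := by
  have : ∀ n, ∃ y : W1, (y : N1) = x n := fun n => WithTop.ne_top_iff_exists.1 (hx n)
  choose y hy using this
  obtain ⟨b, hb⟩ := W1_bounded y
  have h1 : a ≤ (b : N1) := by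
    refine le_of_tendsto ha (Eventually.of_forall fun n => ?_)
    rw [← hy n]
    exact_mod_cast (hb n).le
  intro h
  rw [h, top_le_iff] at h1
  exact WithTop.coe_ne_top h1

/-- the top is not isolated -/
theorem N1_dense : Dense {x : N1 | x ≠ ⊤} := by
  have h1 : ({x : N1 | x ≠ ⊤}) = {(⊤ : N1)}ᶜ := rfl
  rw [h1, dense_compl_singleton_iff_not_open]
  intro ho
  have hn : {(⊤ : N1)} ∈ 𝓝 (⊤ : N1) := ho.mem_nhds rfl
  obtain ⟨a, ha, hs⟩ := exists_Ioc_subset_of_mem_nhds hn ⟨⊥, bot_lt_top⟩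
  obtain ⟨a', rfl⟩ := WithTop.ne_top_iff_exists.1 ha.ne
  obtain ⟨b, hb⟩ := W1_bounded fun _ => a'
  have := hs ⟨WithTop.coe_lt_coe.2 (hb 0), le_top⟩
  exact WithTop.coe_ne_top this

/-- Countable powers of sequentially compact spaces are sequentially compact. -/
theorem seqCompact_pi {N : Type*} [TopologicalSpace N]
    (hN : ∀ x : ℕ → N, ∃ a, ∃ φ : ℕ → ℕ, StrictMono φ ∧ Tendsto (x ∘ φ) atTop (𝓝 a))
    (x : ℕ → ℕ → N) : ∃ a, ∃ φ : ℕ → ℕ, StrictMono φ ∧ Tendsto (x ∘ φ) atTop (𝓝 a) := by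
  have step : ∀ (k : ℕ) (φ : ℕ → ℕ), ∃ (ψ : ℕ → ℕ) (a : N), StrictMono ψ ∧
      Tendsto (fun n => x (φ (ψ n)) k) atTop (𝓝 a) := by
    intro k φ
    obtain ⟨a, ψ, hψ, ha⟩ := hN (fun n => x (φ n) k)
    exact ⟨ψ, a, hψ, ha⟩
  choose ψ a hψ ha using step
  let Φ : ℕ → ℕ → ℕ := fun k => Nat.rec (ψ 0 id) (fun k φ => φ ∘ ψ (k + 1) φ) k
  have hΦs : ∀ k, Φ (k + 1) = Φ k ∘ ψ (k + 1) (Φ k) := fun k => rfl
  have hΦm : ∀ k, StrictMono (Φ k) := by
    intro k
    induction k with
    | zero => exact hψ 0 id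
    | succ k ih => rw [hΦs]; exact ih.comp (hψ _ _)
  have hconv : ∀ k, ∃ b, Tendsto (fun n => x (Φ k n) k) atTop (𝓝 b) := by
    intro k
    cases k with
    | zero => exact ⟨_, ha 0 id⟩
    | succ k => exact ⟨_, ha (k + 1) (Φ k)⟩
  choose b hb using hconv
  have hfac : ∀ k j, ∃ χ : ℕ → ℕ, StrictMono χ ∧ Φ (k + j) = Φ k ∘ χ := by
    intro k j
    induction j with
    | zero => exact ⟨id, strictMono_id, rfl⟩
    | succ j ih =>
      obtain ⟨χ, hχ, he⟩ := ih
      refine ⟨χ ∘ ψ (k + j + 1) (Φ (k + j)), hχ.comp (hψ _ _), ?_⟩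
      have : Φ (k + (j + 1)) = Φ (k + j) ∘ ψ (k + j + 1) (Φ (k + j)) := hΦs (k + j)
      rw [this, he]
      rfl
  choose χ hχm hχ using hfac
  refine ⟨b, fun n => Φ n n, ?_, ?_⟩
  · refine strictMono_nat_of_lt_succ fun n => ?_
    rw [hΦs]
    calc Φ n n < Φ n (n + 1) := hΦm n (Nat.lt_succ_self n)
      _ ≤ Φ n (ψ (n + 1) (Φ n) (n + 1)) := (hΦm n).monotone ((hψ _ _).le_apply)
  · rw [tendsto_pi_nhds]
    intro k
    have h1 : Tendsto (fun j => χ k j (k + j)) atTop atTop := by
      refine tendsto_atTop_mono (fun j => ?_) tendsto_id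
      calc (id j : ℕ) ≤ k + j := by simp
        _ ≤ χ k j (k + j) := (hχm k j).le_apply
    have h2 := (hb k).comp h1
    have h3 : Tendsto (fun j => x (Φ (j + k) (j + k)) k) atTop (𝓝 (b k)) := by
      refine h2.congr fun j => ?_
      have := congrFun (hχ k j) (k + j)
      simp only [Function.comp] at this ⊢
      rw [add_comm j k, this]
    exact (tendsto_add_atTop_iff_nat k).1 h3

/-- the space `(ω₁ + 1)^ℕ` -/
abbrev M1 : Type := ℕ → N1

theorem M1_seqCompact (x : ℕ → M1) :
    ∃ a, ∃ φ : ℕ → ℕ, StrictMono φ ∧ Tendsto (x ∘ φ) atTop (𝓝 a) :=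
  seqCompact_pi N1_seqCompact x

/-- the points of `(ω₁ + 1)^ℕ` all of whose coordinates are countable ordinals -/
def S1 : Set M1 := {m | ∀ k, m k ≠ ⊤}

theorem S1_seqClosed (x : ℕ → M1) (hx : ∀ n, x n ∈ S1) (a : M1)
    (ha : Tendsto x atTop (𝓝 a)) : a ∈ S1 := by
  intro k
  rw [tendsto_pi_nhds] at ha
  exact N1_top_not_lim (fun n => x n k) (fun n => hx n k) (a k) (ha k)

theorem S1_dense : Dense S1 := by
  have h : S1 = Set.pi univ fun _ => {x : N1 | x ≠ ⊤} := by
    ext m; simp [S1]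
  rw [h]
  exact dense_pi univ fun _ _ => N1_dense

theorem S1_compl_dense : Dense S1ᶜ := by
  rw [dense_iff_inter_open]
  rintro U hU ⟨m, hm⟩
  classical
  obtain ⟨F, u, hu, hsub⟩ := isOpen_pi_iff.1 hU m hm
  obtain ⟨k, hk⟩ := Infinite.exists_notMem_finset F
  refine ⟨Function.update m k ⊤, hsub ?_, ?_⟩
  · intro i hi
    rw [Function.update_of_ne]
    · exact (hu i hi).2
    · rintro rfl; exact hk hi
  · intro hS
    exact hS k (by simp)

theorem S1_nonempty : S1.Nonempty := S1_dense.nonempty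

/-! ### A compact selectively highly divergent space -/

/-- the compact space `{0,1}^(P(ℕ) × ℝ)` -/
abbrev K1 : Type := Set ℕ × ℝ → Bool

theorem K1_shd (U : ℕ → Set K1) (hU : ∀ n, IsOpen (U n)) (hne : ∀ n, (U n).Nonempty) :
    ∃ x : ℕ → K1, (∀ n, x n ∈ U n) ∧
      ∀ φ : ℕ → ℕ, StrictMono φ → ∀ z : K1, ¬ Tendsto (x ∘ φ) atTop (𝓝 z) := by
  classical
  have hb : ∀ n, ∃ (F : Finset (Set ℕ × ℝ)) (s : K1), ∀ x : K1, (∀ i ∈ F, x i = s i) → x ∈ U n := by
    intro n
    obtain ⟨s, hs⟩ := hne n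
    obtain ⟨F, u, hu, hsub⟩ := isOpen_pi_iff.1 (hU n) s hs
    refine ⟨F, s, fun x hx => hsub ?_⟩
    intro i hi
    rw [hx i hi]
    exact (hu i hi).2
  choose F s hFs using hb
  let x : ℕ → K1 := fun n i => if i ∈ F n then s n i else decide (n ∈ i.1)
  refine ⟨x, fun n => hFs n _ fun i hi => by simp [x, hi], ?_⟩
  intro φ hφ z hz
  let A : Set ℕ := range fun k => φ (2 * k)
  have hc : (⋃ n, (F n : Set (Set ℕ × ℝ))).Countable :=
    countable_iUnion fun n => (F n).countable_toSet
  have hr : ∃ r : ℝ, (A, r) ∉ ⋃ n, (F n : Set (Set ℕ × ℝ)) := by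
    by_contra hcon
    push Not at hcon
    have h1 : (range fun r : ℝ => (A, r)).Countable := hc.mono (by rintro _ ⟨r, rfl⟩; exact hcon r)
    have h2 : Function.Injective fun r : ℝ => (A, r) := fun a b h => (Prod.ext_iff.1 h).2
    have h3 : (univ : Set ℝ).Countable := by
      rw [← image_univ] at h1
      exact countable_of_injective_of_countable_image h2.injOn h1
    exact not_countable_univ h3
  obtain ⟨r, hr⟩ := hr
  have hval : ∀ n, x n (A, r) = decide (n ∈ A) := by
    intro n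
    have : (A, r) ∉ F n := fun h => hr (mem_iUnion.2 ⟨n, h⟩)
    simp [x, this]
  have hconv : Tendsto (fun k => x (φ k) (A, r)) atTop (𝓝 (z (A, r))) :=
    (continuous_apply (A, r)).continuousAt.tendsto.comp hz
  have hev : ∀ᶠ k in atTop, x (φ k) (A, r) = z (A, r) := by
    rw [nhds_discrete, tendsto_pure] at hconv
    exact hconv
  obtain ⟨k, hk⟩ := eventually_atTop.1 hev
  have h0 := hk (2 * k) (by omega)
  have h1 := hk (2 * k + 1) (by omega)
  rw [hval] at h0 h1
  have m0 : φ (2 * k) ∈ A := ⟨k, rfl⟩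
  have m1 : φ (2 * k + 1) ∉ A := by
    rintro ⟨j, hj⟩
    have := hφ.injective hj
    omega
  rw [← h1] at h0
  simp [m0, m1] at h0

/-! ### An almost disjoint family -/

/-- Cantor space -/
abbrev C1 : Type := ℕ → Bool

/-- code a sequence of points of Cantor space by one point of Cantor space -/
def bb (c : ℕ → C1) : C1 := fun n => c n.unpair.1 n.unpair.2

theorem bb_injective : Function.Injective bb := by
  intro c c' h
  funext i j
  have := congrFun h (Nat.pair i j)
  simpa [bb] using this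

/-- the code of the `k`-th initial segment -/
def seg (b : C1) (k : ℕ) : ℕ := Encodable.encode ((List.range k).map b)

theorem seg_eq {b b' : C1} {k k' : ℕ} (h : seg b k = seg b' k') :
    k = k' ∧ ∀ i < k, b i = b' i := by
  have h1 := Encodable.encode_injective h
  have h2 : k = k' := by
    have := congrArg List.length h1
    simpa using this
  subst h2
  refine ⟨rfl, fun i hi => ?_⟩
  exact (List.map_inj_left.1 h1) i (List.mem_range.2 hi)

/-- an almost disjoint family of infinite sets of integers, indexed by sequences in Cantor space -/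
def JJ (c : ℕ → C1) : Set ℕ := range (seg (bb c))

theorem JJ_infinite (c : ℕ → C1) : (JJ c).Infinite :=
  infinite_range_of_injective fun _ _ h => (seg_eq h).1

theorem JJ_inter_finite {c c' : ℕ → C1} (h : c ≠ c') : (JJ c ∩ JJ c').Finite := by
  have hb : bb c ≠ bb c' := fun e => h (bb_injective e)
  obtain ⟨i, hi⟩ := Function.ne_iff.1 hb
  refine ((Set.finite_Iic i).image (seg (bb c))).subset ?_
  rintro n ⟨⟨k, rfl⟩, ⟨k', hk'⟩⟩
  have := seg_eq hk'.symm
  refine ⟨k, ?_, rfl⟩
  by_contra hcon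
  exact hi (this.2 i (by simpa using hcon))

end Pool.Agent.helper66.SHD
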