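import Pool.Agent.helper66.SHD.Basic

/-!
The locally compact space `X0`, an open subspace of the Stone-Cech compactification of
`ℕ × C1 × K1`.
-/

set_option autoImplicit false

open Set Filter Topology

namespace Pool.Agent.helper66.SHD

/-- the locally compact space `ℕ × C1 × K1` -/
abbrev D1 : Type := ℕ × C1 × K1

/-- its Stone-Cech compactification -/
abbrev Z1 : Type := StoneCech D1

/-- the canonical map -/
def iota : D1 → Z1 := stoneCechUnit

theorem iota_continuous : Continuous iota := continuous_stoneCechUnit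
theorem iota_dense : DenseRange iota := denseRange_stoneCechUnit

/-- the points of `ℕ × C1 × K1` over the partial selection of `c` on the part of `JJ c`
above `k` -/
def tail (c : ℕ → C1) (k : ℕ) : Set D1 := {d | d.1 ∈ JJ c ∧ k ≤ d.1 ∧ d.2.1 = c d.1}

/-- the limit points of the partial selection of `c` -/
def FF (c : ℕ → C1) : Set Z1 := ⋂ k, closure (iota '' tail c k)

/-- the set to be removed -/
def EE : Set Z1 := closure (⋃ c, FF c)

theorem EE_closed : IsClosed EE := isClosed_closure

/-- The extension to `Z1` of a continuous two-valued function. -/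
noncomputable def ext (χ : D1 → Bool) (hχ : Continuous χ) : Z1 → Bool := stoneCechExtend hχ

theorem ext_continuous (χ : D1 → Bool) (hχ : Continuous χ) : Continuous (ext χ hχ) :=
  continuous_stoneCechExtend hχ

theorem ext_iota (χ : D1 → Bool) (hχ : Continuous χ) (d : D1) : ext χ hχ (iota d) = χ d :=
  stoneCechExtend_stoneCechUnit hχ d

/-- A clopen set that contains almost nothing of each partial selection misses `EE`. -/
theorem notMem_EE_of_ext (χ : D1 → Bool) (hχ : Continuous χ)
    (h : ∀ c, ∃ k, ∀ d ∈ tail c k, χ d = false) (z : Z1) (hz : ext χ hχ z = true) : z ∉ EE := by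
  intro hE
  have ho : IsOpen {z | ext χ hχ z = true} :=
    (isOpen_discrete {true}).preimage (ext_continuous χ hχ)
  obtain ⟨w, hw1, hw2⟩ := mem_closure_iff.1 hE _ ho hz
  obtain ⟨c, hc⟩ := mem_iUnion.1 hw2
  obtain ⟨k, hk⟩ := h c
  have hcl : IsClosed {z | ext χ hχ z = false} :=
    (isClosed_discrete {false}).preimage (ext_continuous χ hχ)
  have hsub : closure (iota '' tail c k) ⊆ {z | ext χ hχ z = false} := by
    refine hcl.closure_subset_iff.2 ?_
    rintro _ ⟨d, hd, rfl⟩
    simp only [mem_ofPred_eq, ext_iota]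
    exact hk d hd
  have h1 : ext χ hχ w = false := hsub (mem_iInter.1 hc k)
  have h2 : ext χ hχ w = true := hw1
  rw [h1] at h2
  exact Bool.false_ne_true h2

/-- the characteristic function of level `n` -/
def lev (n : ℕ) : D1 → Bool := fun d => decide (d.1 = n)

theorem lev_continuous (n : ℕ) : Continuous (lev n) := by
  have : Continuous fun m : ℕ => decide (m = n) := continuous_of_discreteTopology
  exact this.comp continuous_fst

/-- the set `V_n` of the points of `Z1` at level `n` -/
def Lev (n : ℕ) : Set Z1 := {z | ext (lev n) (lev_continuous n) z = true}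

theorem Lev_open (n : ℕ) : IsOpen (Lev n) :=
  (isOpen_discrete {true}).preimage (ext_continuous _ _)

theorem iota_mem_Lev (d : D1) : iota d ∈ Lev d.1 := by
  simp [Lev, ext_iota, lev]

theorem notMem_EE_of_Lev (n : ℕ) (z : Z1) (hz : z ∈ Lev n) : z ∉ EE := by
  refine notMem_EE_of_ext (lev n) (lev_continuous n) (fun c => ⟨n + 1, fun d hd => ?_⟩) z hz
  have : d.1 ≠ n := by
    have := hd.2.1
    omega
  simp [lev, this]

theorem iota_notMem_EE (d : D1) : iota d ∉ EE := notMem_EE_of_Lev d.1 _ (iota_mem_Lev d)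

/-- every point of level `n` comes from `ℕ × C1 × K1` -/
theorem exists_of_Lev (n : ℕ) (z : Z1) (hz : z ∈ Lev n) :
    ∃ a k, iota (n, a, k) = z := by
  have h1 : Lev n ⊆ closure (Lev n ∩ range iota) :=
    iota_dense.open_subset_closure_inter (Lev_open n)
  have hcomp : IsCompact (iota '' (({n} : Set ℕ) ×ˢ (univ : Set (C1 × K1)))) :=
    (isCompact_singleton.prod isCompact_univ).image iota_continuous
  have h2 : Lev n ∩ range iota ⊆ iota '' (({n} : Set ℕ) ×ˢ (univ : Set (C1 × K1))) := by
    rintro _ ⟨hw, ⟨d, rfl⟩⟩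
    refine ⟨d, ⟨?_, mem_univ _⟩, rfl⟩
    have : lev n d = true := by
      have := hw
      simp only [Lev, mem_ofPred_eq, ext_iota] at this
      exact this
    simpa [lev] using this
  have h3 := closure_minimal h2 hcomp.isClosed (h1 hz)
  obtain ⟨⟨m, a, k⟩, ⟨hm, _⟩, rfl⟩ := h3
  have hm' : m = n := hm
  subst hm'
  exact ⟨a, k, rfl⟩

/-- Cantor space has no isolated points (in the form needed here). -/
theorem exists_ne_of_open (O : Set C1) (hO : IsOpen O) (hne : O.Nonempty) (c : C1) :
    ∃ a ∈ O, a ≠ c := by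
  obtain ⟨a, ha⟩ := hne
  by_cases hac : a = c
  · subst hac
    obtain ⟨F, u, hu, hsub⟩ := isOpen_pi_iff.1 hO a ha
    obtain ⟨k, hk⟩ := Infinite.exists_notMem_finset F
    refine ⟨Function.update a k (!(a k)), hsub ?_, ?_⟩
    · intro i hi
      rw [Function.update_of_ne]
      · exact (hu i hi).2
      · rintro rfl; exact hk hi
    · intro h
      have := congrFun h k
      simp at this
  · exact ⟨a, ha, hac⟩

/-- The key lemma behind the pseudocompactness of `X0`. -/
theorem exists_cluster (T : Set ℕ) (hT : T.Infinite) (O : ℕ → Set C1)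
    (hO : ∀ l ∈ T, IsOpen (O l) ∧ (O l).Nonempty) (k : ℕ → K1) :
    ∃ z, z ∉ EE ∧ ∀ N ∈ 𝓝 z, ∃ᶠ l in atTop, l ∈ T ∧ ∃ a ∈ O l, iota (l, a, k l) ∈ N := by
  classical
  -- choose an infinite `T' ⊆ T`, points `a l ∈ O l` and clopen neighbourhoods `W l`
  have key : ∃ (T' : Set ℕ) (a : ℕ → C1) (W : ℕ → C1 → Bool), T'.Infinite ∧ T' ⊆ T ∧
      (∀ l, Continuous (W l)) ∧ (∀ l ∈ T', a l ∈ O l ∧ W l (a l) = true) ∧
      (∀ c : ℕ → C1, ∃ m, ∀ l ∈ T', l ∈ JJ c → m ≤ l → W l (c l) = false) := by
    by_cases hc : ∃ c, (T ∩ JJ c).Infinite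
    · obtain ⟨c, hc⟩ := hc
      have : ∀ l, ∃ a : C1, l ∈ T → (a ∈ O l ∧ a ≠ c l) := by
        intro l
        by_cases hl : l ∈ T
        · obtain ⟨a, ha, hne⟩ := exists_ne_of_open (O l) (hO l hl).1 (hO l hl).2 (c l)
          exact ⟨a, fun _ => ⟨ha, hne⟩⟩
        · exact ⟨fun _ => false, fun h => absurd h hl⟩
      choose a ha using this
      have : ∀ l, ∃ i : ℕ, l ∈ T → a l i ≠ c l i := by
        intro l
        by_cases hl : l ∈ T
        · obtain ⟨i, hi⟩ := Function.ne_iff.1 (ha l hl).2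
          exact ⟨i, fun _ => hi⟩
        · exact ⟨0, fun h => absurd h hl⟩
      choose i hi using this
      refine ⟨T ∩ JJ c, a, fun l x => decide (x (i l) = a l (i l)), hc, inter_subset_left, ?_, ?_, ?_⟩
      · intro l
        have : Continuous fun b : Bool => decide (b = a l (i l)) := continuous_of_discreteTopology
        exact this.comp (continuous_apply (i l))
      · intro l hl
        exact ⟨(ha l hl.1).1, by simp⟩
      · intro c'
        by_cases hcc : c' = c
        · subst hcc
          refine ⟨0, fun l hl _ _ => ?_⟩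
          have := hi l hl.1
          simp only [decide_eq_false_iff_not]
          exact fun h => this h.symm
        · have hfin : (JJ c ∩ JJ c').Finite := JJ_inter_finite fun h => hcc h.symm
          obtain ⟨m, hm⟩ := hfin.bddAbove
          refine ⟨m + 1, fun l hl hl' hml => ?_⟩
          have := hm ⟨hl.2, hl'⟩
          omega
    · push Not at hc
      have : ∀ l, ∃ a : C1, l ∈ T → a ∈ O l := by
        intro l
        by_cases hl : l ∈ T
        · obtain ⟨a, ha⟩ := (hO l hl).2
          exact ⟨a, fun _ => ha⟩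
        · exact ⟨fun _ => false, fun h => absurd h hl⟩
      choose a ha using this
      refine ⟨T, a, fun _ _ => true, hT, subset_rfl, fun _ => continuous_const,
        fun l hl => ⟨ha l hl, rfl⟩, fun c => ?_⟩
      obtain ⟨m, hm⟩ := (hc c).bddAbove
      refine ⟨m + 1, fun l hl hl' hml => ?_⟩
      have := hm ⟨hl, hl'⟩
      omega
  obtain ⟨T', a, W, hT', hTT, hW, haW, hsel⟩ := key
  -- the characteristic function of the clopen set
  let χ : D1 → Bool := fun d => decide (d.1 ∈ T') && W d.1 d.2.1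
  have hχ : Continuous χ := by
    rw [continuous_prod_of_discrete_left]
    intro n
    have : Continuous fun b : Bool => decide (n ∈ T') && b := continuous_of_discreteTopology
    exact this.comp ((hW n).comp continuous_fst)
  -- the sequence of points over `T'` and a cluster point of it
  let f : ℕ → Z1 := fun l => iota (l, a l, k l)
  have hfr : ∃ᶠ l in atTop, l ∈ T' := Nat.frequently_atTop_iff_infinite.2 hT'
  have hne : (atTop ⊓ 𝓟 T' : Filter ℕ).NeBot := by
    rw [← frequently_mem_iff_neBot]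
    exact hfr
  obtain ⟨z, hz⟩ := exists_clusterPt_of_compactSpace (map f (atTop ⊓ 𝓟 T'))
  have hzf : ∀ N ∈ 𝓝 z, ∃ᶠ l in atTop, l ∈ T' ∧ f l ∈ N := by
    intro N hN
    have h1 : ∃ᶠ l in (atTop ⊓ 𝓟 T' : Filter ℕ), f l ∈ N := by
      have : MapClusterPt z (atTop ⊓ 𝓟 T') f := hz
      exact this.frequently hN
    exact frequently_inf_principal.1 h1
  have hval : ∀ l ∈ T', ext χ hχ (f l) = true := by
    intro l hl
    simp only [f, ext_iota, χ, Bool.and_eq_true, decide_eq_true_eq]
    exact ⟨hl, (haW l hl).2⟩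
  have hzt : ext χ hχ z = true := by
    by_contra hcon
    have ho : IsOpen {z | ext χ hχ z = false} :=
      (isOpen_discrete {false}).preimage (ext_continuous χ hχ)
    have hmem : {z | ext χ hχ z = false} ∈ 𝓝 z := ho.mem_nhds (by simpa using hcon)
    obtain ⟨l, hl, hl'⟩ := (hzf _ hmem).exists
    have h1 : ext χ hχ (f l) = false := hl'
    rw [hval l hl] at h1
    exact Bool.false_ne_true h1.symm
  refine ⟨z, ?_, ?_⟩
  · refine notMem_EE_of_ext χ hχ (fun c => ?_) z hzt
    obtain ⟨m, hm⟩ := hsel c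
    refine ⟨m, ?_⟩
    rintro ⟨l, x, y⟩ ⟨h1, h2, h3⟩
    simp only at h1 h2 h3
    by_cases hl : l ∈ T'
    · have := hm l hl h1 h2
      simp [χ, h3, this]
    · simp [χ, hl]
  · intro N hN
    exact (hzf N hN).mono fun l hl => ⟨hTT hl.1, a l, (haW l hl.1).1, hl.2⟩

/-! ### The space `X0` -/

/-- The locally compact space `X0`. -/
abbrev X0 : Type := {z : Z1 // z ∉ EE}

theorem X0_open : IsOpen {z : Z1 | z ∉ EE} := EE_closed.isOpen_compl

instance : LocallyCompactSpace X0 := X0_open.isOpenEmbedding_subtypeVal.locallyCompactSpace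

/-- the canonical map into `X0` -/
def jj (d : D1) : X0 := ⟨iota d, iota_notMem_EE d⟩

theorem jj_continuous : Continuous jj := iota_continuous.subtype_mk _

theorem jj_dense : DenseRange jj := by
  have h := iota_dense
  intro x
  rw [mem_closure_iff]
  intro o ho hx
  obtain ⟨o', ho', rfl⟩ := isOpen_induced_iff.1 ho
  obtain ⟨_, hw, ⟨d, rfl⟩⟩ := mem_closure_iff.1 (h x.1) (o' ∩ {z : Z1 | z ∉ EE})
    (ho'.inter X0_open) ⟨hx, x.2⟩
  exact ⟨jj d, hw.1, ⟨d, rfl⟩⟩

/-- the set `V_n` in `X0` -/
def VV (n : ℕ) : Set X0 := {x | x.1 ∈ Lev n}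

theorem VV_open (n : ℕ) : IsOpen (VV n) := (Lev_open n).preimage continuous_subtype_val

theorem jj_mem_VV (d : D1) : jj d ∈ VV d.1 := iota_mem_Lev d

theorem exists_of_VV (n : ℕ) (x : X0) (hx : x ∈ VV n) : ∃ a k, jj (n, a, k) = x := by
  obtain ⟨a, k, h⟩ := exists_of_Lev n x.1 hx
  exact ⟨a, k, Subtype.ext h⟩

theorem VV_nonempty (n : ℕ) : (VV n).Nonempty := by
  have h := jj_mem_VV (n, (fun _ => false : C1), (fun _ => false : K1))
  exact ⟨_, h⟩

/-- **Pseudocompactness of `X0`**: every sequence of nonempty open sets has a cluster point. -/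
theorem X0_pseudocompact (U : ℕ → Set X0) (hU : ∀ n, IsOpen (U n)) (hne : ∀ n, (U n).Nonempty) :
    ∃ z, ∀ N ∈ 𝓝 z, ∃ᶠ n in atTop, (U n ∩ N).Nonempty := by
  have : ∀ n, ∃ d : D1, jj d ∈ U n := fun n => jj_dense.exists_mem_open (hU n) (hne n)
  choose d hd using this
  by_cases hcase : ∃ j, ∃ᶠ n in atTop, (d n).1 = j
  · -- infinitely many points in one compact level
    obtain ⟨j, hj⟩ := hcase
    have hcomp : IsCompact (jj '' (({j} : Set ℕ) ×ˢ (univ : Set (C1 × K1)))) :=
      (isCompact_singleton.prod isCompact_univ).image jj_continuous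
    have hne' : (atTop ⊓ 𝓟 {n | (d n).1 = j} : Filter ℕ).NeBot := by
      rw [← frequently_mem_iff_neBot]
      exact hj
    have hle : map (fun n => jj (d n)) (atTop ⊓ 𝓟 {n | (d n).1 = j}) ≤
        𝓟 (jj '' (({j} : Set ℕ) ×ˢ (univ : Set (C1 × K1)))) := by
      rw [le_principal_iff, mem_map]
      refine mem_inf_of_right ?_
      rw [mem_principal]
      intro n hn
      exact ⟨d n, ⟨hn, mem_univ _⟩, rfl⟩
    obtain ⟨z, -, hz⟩ := hcomp hle
    refine ⟨z, fun N hN => ?_⟩
    have h1 : ∃ᶠ n in (atTop ⊓ 𝓟 {n | (d n).1 = j} : Filter ℕ), jj (d n) ∈ N := by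
      have : MapClusterPt z (atTop ⊓ 𝓟 {n | (d n).1 = j}) (fun n => jj (d n)) := hz
      exact this.frequently hN
    exact (frequently_inf_principal.1 h1).mono fun n hn => ⟨_, hd n, hn.2⟩
  · -- the levels tend to infinity
    push Not at hcase
    -- the set of levels is infinite
    have hT : (range fun n => (d n).1).Infinite := by
      intro hfin
      have h1 : ∀ᶠ n in atTop, ∀ j ∈ (range fun n => (d n).1), (d n).1 ≠ j := by
        rw [eventually_all_finite hfin]
        intro j _
        exact hcase j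
      obtain ⟨n, hn⟩ := h1.exists
      exact hn _ ⟨n, rfl⟩ rfl
    -- choose an index for every level
    have : ∀ l, ∃ n, l ∈ (range fun n => (d n).1) → (d n).1 = l := by
      intro l
      by_cases hl : l ∈ (range fun n => (d n).1)
      · obtain ⟨n, hn⟩ := hl
        exact ⟨n, fun _ => hn⟩
      · exact ⟨0, fun h => absurd h hl⟩
    choose idx hidx using this
    let k : ℕ → K1 := fun l => (d (idx l)).2.2
    let O : ℕ → Set C1 := fun l => {a | jj (l, a, k l) ∈ U (idx l)}
    have hO : ∀ l ∈ (range fun n => (d n).1), IsOpen (O l) ∧ (O l).Nonempty := by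
      intro l hl
      constructor
      · have hc : Continuous fun a : C1 => jj (l, a, k l) :=
          jj_continuous.comp (continuous_const.prodMk (continuous_id.prodMk continuous_const))
        exact (hU (idx l)).preimage hc
      · refine ⟨(d (idx l)).2.1, ?_⟩
        have h1 : (l, (d (idx l)).2.1, k l) = d (idx l) := by
          rw [Prod.ext_iff]
          exact ⟨(hidx l hl).symm, rfl⟩
        have h2 := hd (idx l)
        rw [← h1] at h2
        exact h2
    obtain ⟨z, hz, hcl⟩ := exists_cluster _ hT O hO k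
    refine ⟨⟨z, hz⟩, fun N hN => ?_⟩
    obtain ⟨N', hN', hsub⟩ := mem_nhds_subtype _ _ _ |>.1 hN
    have hinf := Nat.frequently_atTop_iff_infinite.1 (hcl N' hN')
    rw [Nat.frequently_atTop_iff_infinite]
    have hinj : InjOn idx {l | l ∈ (range fun n => (d n).1) ∧ ∃ a ∈ O l, iota (l, a, k l) ∈ N'} := by
      intro l hl l' hl' h
      rw [← hidx l hl.1, ← hidx l' hl'.1, h]
    refine (hinf.image hinj).mono ?_
    rintro _ ⟨l, ⟨hl, a, ha, haN⟩, rfl⟩
    exact ⟨jj (l, a, k l), ha, hsub haN⟩

/-- **Selections**: every selection from the sets `V_n` has a subsequence that leaves every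
compact subset of `X0`. -/
theorem selection (c : ℕ → C1) (k : ℕ → K1) :
    ∃ φ : ℕ → ℕ, StrictMono φ ∧
      Tendsto (fun i => jj (φ i, c (φ i), k (φ i))) atTop (coclosedCompact X0) := by
  classical
  have hinf : {n | n ∈ JJ c}.Infinite := JJ_infinite c
  let φ : ℕ → ℕ := Nat.nth (fun n => n ∈ JJ c)
  have hφ : StrictMono φ := Nat.nth_strictMono hinf
  have hmem : ∀ i, φ i ∈ JJ c := fun i => Nat.nth_mem_of_infinite hinf i
  refine ⟨φ, hφ, ?_⟩
  rw [hasBasis_coclosedCompact.tendsto_right_iff]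
  rintro s ⟨hs1, hs2⟩
  by_contra hcon
  rw [not_eventually] at hcon
  have hne : (atTop ⊓ 𝓟 {i | jj (φ i, c (φ i), k (φ i)) ∈ s} : Filter ℕ).NeBot := by
    rw [← frequently_mem_iff_neBot]
    exact hcon.mono fun i hi => not_not.1 hi
  have hle : map (fun i => jj (φ i, c (φ i), k (φ i)))
      (atTop ⊓ 𝓟 {i | jj (φ i, c (φ i), k (φ i)) ∈ s}) ≤ 𝓟 s := by
    rw [le_principal_iff, mem_map]
    refine mem_inf_of_right ?_
    rw [mem_principal]
    exact fun i hi => hi
  obtain ⟨z, hzs, hz⟩ := hs2 hle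
  have hz' : MapClusterPt z (atTop ⊓ 𝓟 {i | jj (φ i, c (φ i), k (φ i)) ∈ s})
      (fun i => jj (φ i, c (φ i), k (φ i))) := hz
  apply z.2
  refine subset_closure (mem_iUnion.2 ⟨c, mem_iInter.2 fun m => ?_⟩)
  rw [mem_closure_iff_nhds]
  intro N hN
  have h1 : ∃ᶠ i in (atTop ⊓ 𝓟 {i | jj (φ i, c (φ i), k (φ i)) ∈ s} : Filter ℕ),
      jj (φ i, c (φ i), k (φ i)) ∈ (Subtype.val ⁻¹' N : Set X0) :=
    hz'.frequently (continuous_subtype_val.continuousAt.preimage_mem_nhds hN)
  have h2 : ∃ᶠ i in atTop, jj (φ i, c (φ i), k (φ i)) ∈ (Subtype.val ⁻¹' N : Set X0) :=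
    (frequently_inf_principal.1 h1).mono fun i hi => hi.2
  have h3 : ∀ᶠ i in atTop, m ≤ φ i := hφ.tendsto_atTop.eventually_ge_atTop m
  obtain ⟨i, hi1, hi2⟩ := (h2.and_eventually h3).exists
  exact ⟨_, hi1, ⟨_, ⟨hmem i, hi2, rfl⟩, rfl⟩⟩

/-- `X0` is not compact. -/
instance : NoncompactSpace X0 := by
  refine ⟨fun hc => ?_⟩
  obtain ⟨φ, -, h⟩ := selection (fun _ _ => false) (fun _ _ => false)
  have h1 : (univ : Set X0)ᶜ ∈ coclosedCompact X0 :=
    hasBasis_coclosedCompact.mem_iff.2 ⟨univ, ⟨isClosed_univ, hc⟩, subset_rfl⟩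
  obtain ⟨i, hi⟩ := (h.eventually h1).exists
  exact hi (mem_univ _)

/-- The continuous projection of `Z1` to `K1`. -/
noncomputable def proj : Z1 → K1 :=
  stoneCechExtend (g := fun d : D1 => d.2.2) (continuous_snd.comp continuous_snd)

theorem proj_continuous : Continuous proj := continuous_stoneCechExtend _

theorem proj_iota (d : D1) : proj (iota d) = d.2.2 := stoneCechExtend_stoneCechUnit _ d

end Pool.Agent.helper66.SHD
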